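import Mathlib

/-!
# The weak Lipschitz Baumgartner axioms imply `2^ℵ₀ = 2^ℵ₁`

Both `BA_Lip(2^ω)` and `BA_Lip(ω^ω)` imply `2^ℵ₀ = 2^ℵ₁`. There are `2^ℵ₁` many `ℵ₁`-dense sets with
pairwise countable intersections: for `g : ω₁ → 2` use (a dense copy of) the set of the initial segments
of `g`, inside `2^{<ω₁}`, which has size `2^ℵ₀`. A Lipschitz function that maps a fixed `ℵ₁`-dense set
injectively into one of them does so for only one of them, and there are only `2^ℵ₀` Lipschitz
functions.
-/

set_option autoImplicit false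

namespace Pool.Agent.Results.MP_84ba36_lc.ContinuumPowers

open Set Topology
open scoped Cardinal

/-- `f` is Lipschitz with constant `1`: if `x` and `y` agree below `k`, so do `f x` and `f y`. -/
def Lip {α : Type} (f : (ℕ → α) → (ℕ → α)) : Prop :=
  ∀ (k : ℕ) (x y : ℕ → α), (∀ i < k, x i = y i) → ∀ i < k, f x i = f y i

/-- `A` is `ℵ₁`-dense: `|A ∩ U| = ℵ₁` for every nonempty open `U`. -/
def AlephOneDense {α : Type} [TopologicalSpace α] (A : Set (ℕ → α)) : Prop :=
  ∀ U : Set (ℕ → α), IsOpen U → U.Nonempty → #(A ∩ U : Set (ℕ → α)) = Cardinal.aleph 1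

/-- The axiom `BA_Lip(α^ω)`. -/
def BALip (α : Type) [TopologicalSpace α] : Prop :=
  ∀ A B : Set (ℕ → α), AlephOneDense A → AlephOneDense B →
    ∃ f : (ℕ → α) → (ℕ → α), Lip f ∧ InjOn f A ∧ MapsTo f A B

/-- a well-order of type `ω₁` -/
abbrev T : Type := (Cardinal.aleph.{0} 1).ord.ToType

/-- the binary sequences of length `< ω₁` -/
abbrev S : Type := Σ t : T, (Iio t → Bool)

theorem mk_T : #T = Cardinal.aleph 1 := Cardinal.mk_ord_toType _

theorem countable_Iio (t : T) : (Iio t).Countable := by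
  rw [Cardinal.countable_iff_lt_aleph_one]
  exact Cardinal.mk_Iio_toType_ord_lt t

theorem mk_S : #S ≤ 𝔠 := by
  rw [Cardinal.mk_sigma]
  have h1 : ∀ t : T, #(Iio t → Bool) ≤ 𝔠 := by
    intro t
    have h2 : #(Iio t) ≤ ℵ₀ := (countable_Iio t).le_aleph0
    have h3 : #(Iio t → Bool) = 2 ^ #(Iio t) := by simp
    rw [h3, ← Cardinal.two_power_aleph0]
    exact Cardinal.power_le_power_left (by norm_num) h2
  refine (Cardinal.sum_le_sum _ _ h1).trans ?_
  rw [Cardinal.sum_const', mk_T]
  exact Cardinal.mul_le_of_le Cardinal.aleph0_le_continuum Cardinal.aleph_one_le_continuum le_rfl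

section

variable {α : Type} [Countable α] [Nontrivial α]

theorem mk_seq : #(ℕ → α) = 𝔠 := by
  have h1 : #(ℕ → α) = #α ^ ℵ₀ := by simp
  rw [h1]
  apply le_antisymm
  · calc #α ^ ℵ₀ ≤ ℵ₀ ^ ℵ₀ := Cardinal.power_le_power_right Cardinal.mk_le_aleph0
      _ = 𝔠 := Cardinal.aleph0_power_aleph0
  · rw [← Cardinal.two_power_aleph0]
    refine Cardinal.power_le_power_right ?_
    exact Cardinal.two_le_iff.2 (exists_pair_ne α)

theorem exists_h : ∃ h : List α × S → (ℕ → α), Function.Injective h := by
  have h1 : #(List α × S) ≤ #(ℕ → α) := by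
    rw [Cardinal.mk_prod, Cardinal.lift_id, Cardinal.lift_id, mk_seq]
    exact Cardinal.mul_le_of_le Cardinal.aleph0_le_continuum
      (Cardinal.mk_le_aleph0.trans Cardinal.aleph0_le_continuum) mk_S
  obtain ⟨f⟩ := h1
  exact ⟨f, f.injective⟩

/-- `s` followed by the sequence in which every value of `z` occurs infinitely often -/
def put (s : List α) (z : ℕ → α) : ℕ → α := fun i =>
  if h : i < s.length then s[i] else z (Nat.unpair i).1

omit [Countable α] [Nontrivial α] in
theorem put_inj {s s' : List α} {z z' : ℕ → α} (h : put s z = put s' z') : z = z' := by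
  funext k
  let i := Nat.pair k (max s.length s'.length)
  have h1 : max s.length s'.length ≤ i := Nat.right_le_pair _ _
  have h2 := congrFun h i
  unfold put at h2
  rw [dif_neg (by omega), dif_neg (by omega)] at h2
  simpa [i] using h2

/-- the restriction of `g` to the predecessors of `t` -/
def res (g : T → Bool) (t : T) : S := ⟨t, fun v => g v⟩

/-- the `ℵ₁`-dense set of `g` -/
def D (h : List α × S → (ℕ → α)) (g : T → Bool) : Set (ℕ → α) :=
  range fun p : List α × T => put p.1 (h (p.1, res g p.2))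

omit [Countable α] [Nontrivial α] in
theorem D_inj {h : List α × S → (ℕ → α)} (hh : Function.Injective h) {g g' : T → Bool}
    {p p' : List α × T} (hp : put p.1 (h (p.1, res g p.2)) = put p'.1 (h (p'.1, res g' p'.2))) :
    p = p' ∧ ∀ v < p.2, g v = g' v := by
  have h1 := hh (put_inj hp)
  have h2 : p.1 = p'.1 := (Prod.mk.inj h1).1
  have h3 : res g p.2 = res g' p'.2 := (Prod.mk.inj h1).2
  obtain ⟨s, t⟩ := p
  obtain ⟨s', t'⟩ := p'
  dsimp only at h2 h3
  have h4 : t = t' := congrArg Sigma.fst h3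
  subst h2
  subst h4
  refine ⟨rfl, fun v hv => ?_⟩
  have h5 := eq_of_heq (Sigma.mk.inj h3).2
  exact congrFun h5 ⟨v, hv⟩

variable [TopologicalSpace α] [DiscreteTopology α]

omit [Nontrivial α] in
theorem dense_D {h : List α × S → (ℕ → α)} (hh : Function.Injective h) (g : T → Bool) :
    AlephOneDense (D h g) := by
  intro U hU hne
  apply le_antisymm
  · refine (Cardinal.mk_le_mk_of_subset inter_subset_left).trans ?_
    refine Cardinal.mk_range_le.trans ?_
    rw [Cardinal.mk_prod, Cardinal.lift_id, Cardinal.lift_id, mk_T]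
    exact Cardinal.mul_le_of_le (Cardinal.aleph0_le_aleph 1)
      (Cardinal.mk_le_aleph0.trans (Cardinal.aleph0_le_aleph 1)) le_rfl
  · obtain ⟨x, hx⟩ := hne
    obtain ⟨V, ⟨z, n, rfl⟩, hxV, hVU⟩ :=
      (PiNat.isTopologicalBasis_cylinders (E := fun _ : ℕ => α)).exists_subset_of_mem_open hx hU
    let s : List α := List.ofFn fun i : Fin n => x i
    have h1 : ∀ w, put s w ∈ U := by
      intro w
      refine hVU ?_
      rw [PiNat.mem_cylinder_iff] at hxV ⊢
      intro i hi
      rw [← hxV i hi]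
      unfold put
      have h2 : i < s.length := by simpa [s] using hi
      rw [dif_pos h2]
      simp [s]
    rw [← mk_T]
    refine Cardinal.mk_le_of_injective
      (f := fun t : T => (⟨put s (h (s, res g t)), ⟨(s, t), rfl⟩, h1 _⟩ : (D h g ∩ U : Set _))) ?_
    intro t t' htt
    have h3 := congrArg Subtype.val htt
    have h4 := (D_inj hh (g := g) (g' := g) (p := (s, t)) (p' := (s, t')) h3).1
    exact congrArg Prod.snd h4

omit [Nontrivial α] [TopologicalSpace α] [DiscreteTopology α] in
theorem countable_inter {h : List α × S → (ℕ → α)} (hh : Function.Injective h) {g g' : T → Bool}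
    (hg : g ≠ g') : (D h g ∩ D h g').Countable := by
  obtain ⟨t0, ht0⟩ := Function.ne_iff.1 hg
  have h1 : (Iic t0).Countable := by
    have h2 : Iic t0 = insert t0 (Iio t0) := by
      ext s
      simp only [mem_Iic, mem_insert_iff, mem_Iio]
      exact le_iff_eq_or_lt
    rw [h2]
    exact (countable_Iio t0).insert t0
  have h2 : ((univ : Set (List α)) ×ˢ Iic t0).Countable := countable_univ.prod h1
  refine (h2.image fun p : List α × T => put p.1 (h (p.1, res g p.2))).mono ?_
  rintro _ ⟨⟨p, rfl⟩, ⟨p', hp'⟩⟩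
  refine ⟨p, ⟨trivial, ?_⟩, rfl⟩
  obtain ⟨-, h3⟩ := D_inj hh (g := g) (g' := g') (p := p) (p' := p') hp'.symm
  by_contra hcon
  exact ht0 (h3 t0 (not_le.1 hcon))

omit [Nontrivial α] [TopologicalSpace α] [DiscreteTopology α] in
theorem mk_Lip [Nonempty α] : #{f : (ℕ → α) → (ℕ → α) // Lip f} ≤ 𝔠 := by
  obtain ⟨c⟩ := (inferInstance : Nonempty α)
  have h1 : Function.Injective fun (f : {f : (ℕ → α) → (ℕ → α) // Lip f}) (s : List α) =>
      f.1 (fun i => if h : i < s.length then s[i] else c) := by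
    intro f f' hff
    apply Subtype.ext
    funext x k
    have h2 := congrFun (congrFun hff (List.ofFn fun i : Fin (k + 1) => x i)) k
    dsimp only at h2
    have h3 : ∀ i < k + 1, x i = (fun i => if h : i < (List.ofFn fun i : Fin (k + 1) => x i).length
        then (List.ofFn fun i : Fin (k + 1) => x i)[i] else c) i := by
      intro i hi
      have h4 : i < (List.ofFn fun i : Fin (k + 1) => x i).length := by simpa using hi
      simp only [dif_pos h4, List.getElem_ofFn]
    rw [f.2 (k + 1) _ _ h3 k (Nat.lt_succ_self k), f'.2 (k + 1) _ _ h3 k (Nat.lt_succ_self k)]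
    exact h2
  refine (Cardinal.mk_le_of_injective h1).trans ?_
  have h2 : #(List α → ℕ → α) = (#α ^ ℵ₀) ^ #(List α) := by simp
  rw [h2]
  have h3 : #α ^ ℵ₀ ≤ 𝔠 := by
    calc #α ^ ℵ₀ ≤ ℵ₀ ^ ℵ₀ := Cardinal.power_le_power_right Cardinal.mk_le_aleph0
      _ = 𝔠 := Cardinal.aleph0_power_aleph0
  calc (#α ^ ℵ₀) ^ #(List α) ≤ 𝔠 ^ #(List α) := Cardinal.power_le_power_right h3
    _ ≤ 𝔠 ^ ℵ₀ := Cardinal.power_le_power_left Cardinal.continuum_ne_zero Cardinal.mk_le_aleph0
    _ = 𝔠 := Cardinal.continuum_power_aleph0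

theorem main (hBA : BALip α) : (2 : Cardinal.{0}) ^ ℵ₀ = 2 ^ Cardinal.aleph 1 := by
  obtain ⟨h, hh⟩ := exists_h (α := α)
  apply le_antisymm
  · exact Cardinal.power_le_power_left (by norm_num) (Cardinal.aleph0_le_aleph 1)
  · let A := D h (fun _ => false)
    have hA : AlephOneDense A := dense_D hh _
    choose f hf hinj hmaps using fun g : T → Bool => hBA A (D h g) hA (dense_D hh g)
    have h1 : Function.Injective fun g : T → Bool =>
        (⟨f g, hf g⟩ : {f : (ℕ → α) → (ℕ → α) // Lip f}) := by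
      intro g g' hgg
      by_contra hne
      have h2 : f g = f g' := congrArg Subtype.val hgg
      have h3 : (f g '' A).Countable := by
        refine (countable_inter hh hne).mono ?_
        rintro _ ⟨x, hx, rfl⟩
        refine ⟨hmaps g hx, ?_⟩
        rw [h2]
        exact hmaps g' hx
      have h4 : A.Countable := countable_of_injective_of_countable_image (hinj g) h3
      have h5 := hA univ isOpen_univ univ_nonempty
      rw [inter_univ] at h5
      rw [Cardinal.countable_iff_lt_aleph_one, h5] at h4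
      exact lt_irrefl _ h4
    have h2 := (Cardinal.mk_le_of_injective h1).trans mk_Lip
    rw [Cardinal.two_power_aleph0]
    have h3 : #(T → Bool) = 2 ^ Cardinal.aleph 1 := by
      rw [← mk_T]
      simp
    rw [← h3]
    exact h2

end

/-- Each of `BA_Lip(2^ω)` and `BA_Lip(ω^ω)` implies `2^ℵ₀ = 2^ℵ₁`. -/
theorem result :
    (BALip Bool → (2 : Cardinal.{0}) ^ ℵ₀ = 2 ^ Cardinal.aleph 1) ∧
    (BALip ℕ → (2 : Cardinal.{0}) ^ ℵ₀ = 2 ^ Cardinal.aleph 1) :=
  ⟨main, main⟩

end Pool.Agent.Results.MP_84ba36_lc.ContinuumPowers
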